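import Pool.Agent.K.MP_d44d06_co.C1

open Pool.Agent.P.MP_d44d06_co

/-- Both diameters are bounded by an absolute constant. -/
theorem Pool.Agent.Results.MP_d44d06_co.BoundedDiameter.result (n : ℕ) (hn : 5 ≤ n) :
    1 ≤ (DCG n IsCaterpillar).ediam ∧
      (DCG n IsCaterpillar).ediam ≤ (DCG n IsOneLegged).ediam ∧
      (DCG n IsOneLegged).ediam ≤ 14 :=
  main n hn
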